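import Pool.Agent.Q93.HP.Defs

set_option autoImplicit false

open Finset

namespace Pool.Agent.Q93.HP

/-- `F_p^n` -/
abbrev V (p n : ℕ) := Fin n → ZMod p

variable {p m : ℕ} [hpf : Fact p.Prime]

/-- the hash functions -/
def hh (p n k : ℕ) : (Fin k → V p n) →+ (V p n →+ V p k) :=
  AddMonoidHom.mk' (fun a => AddMonoidHom.mk' (fun v i => ∑ l, a i l * v l)
    (fun v w => funext fun i => by simp [mul_add, sum_add_distrib]))
    (fun a b => AddMonoidHom.ext fun v => funext fun i => by simp [add_mul, sum_add_distrib])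

lemma hh_apply (n k : ℕ) (a : Fin k → V p n) (v : V p n) (i : Fin k) :
    hh p n k a v i = ∑ l, a i l * v l := rfl

lemma hh_one (n k : ℕ) (z : V p n) (hz : z ≠ 0) :
    (univ.filter fun a => hh p n k a z = 0).card * p ^ k = Fintype.card (Fin k → V p n) := by
  obtain ⟨l, hl⟩ := Function.ne_iff.1 hz
  have hs : Function.Surjective ((AddMonoidHom.flip (hh p n k)) z) := by
    intro w
    refine ⟨fun i l' => if l' = l then w i * (z l)⁻¹ else 0, ?_⟩
    funext i
    change ∑ l', (if l' = l then w i * (z l)⁻¹ else 0) * z l' = w i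
    simp only [ite_mul, zero_mul, sum_ite_eq', mem_univ, if_true]
    rw [mul_assoc, inv_mul_cancel₀ hl, mul_one]
  have := Pool.Agent.Q93.MK.card_ker ((AddMonoidHom.flip (hh p n k)) z) hs
  rw [Fintype.card_fun, ZMod.card, Fintype.card_fin] at this
  exact this

/-- a nonzero minor -/
lemma exists_minor {n : ℕ} (z z' : V p n) (hz : z ≠ 0) (hz' : z' ≠ 0) (hr : rep p z = z)
    (hr' : rep p z' = z') (hne : z ≠ z') : ∃ l l' : Fin n, z l * z' l' - z l' * z' l ≠ 0 := by
  by_contra hcon
  push Not at hcon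
  obtain ⟨l, hl⟩ := Function.ne_iff.1 hz
  have hl' : z l ≠ 0 := hl
  have h1 : z' = (z' l * (z l)⁻¹) • z := by
    funext j
    have := hcon l j
    rw [Pi.smul_apply, smul_eq_mul]
    field_simp
    linear_combination this
  have h2 : z' l * (z l)⁻¹ ≠ 0 := by
    intro h0
    rw [h0, zero_smul] at h1
    exact hz' h1
  have h3 : rep p z' = rep p z := by
    have : z' = (Units.mk0 _ h2) • z := by rw [Units.smul_def, Units.val_mk0]; exact h1
    rw [this, rep_smul]
  rw [hr, hr'] at h3
  exact hne h3.symm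

lemma hh_two (n k : ℕ) (z z' : V p n) (hz : z ≠ 0) (hz' : z' ≠ 0) (hr : rep p z = z)
    (hr' : rep p z' = z') (hne : z ≠ z') :
    (univ.filter fun a => hh p n k a z = 0 ∧ hh p n k a z' = 0).card * (p ^ k) ^ 2 =
      Fintype.card (Fin k → V p n) := by
  have hs : Function.Surjective fun a : Fin k → V p n => (hh p n k a z, hh p n k a z') := by
    obtain ⟨l, l', hdet⟩ := exists_minor z z' hz hz' hr hr' hne
    set d := z l * z' l' - z l' * z' l with hd
    have hll : l ≠ l' := by rintro rfl; exact hdet (by rw [hd]; ring)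
    rintro ⟨w, w'⟩
    refine ⟨fun i j => if j = l then (w i * z' l' - w' i * z l') * d⁻¹ else
      if j = l' then (w' i * z l - w i * z' l) * d⁻¹ else 0, ?_⟩
    have key : ∀ (u : V p n) (i : Fin k),
        ∑ j, (if j = l then (w i * z' l' - w' i * z l') * d⁻¹ else
          if j = l' then (w' i * z l - w i * z' l) * d⁻¹ else 0) * u j =
        (w i * z' l' - w' i * z l') * d⁻¹ * u l + (w' i * z l - w i * z' l) * d⁻¹ * u l' := by
      intro u i
      have : ∀ j, (if j = l then (w i * z' l' - w' i * z l') * d⁻¹ else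
          if j = l' then (w' i * z l - w i * z' l) * d⁻¹ else 0) * u j =
          (if j = l then (w i * z' l' - w' i * z l') * d⁻¹ * u j else 0) +
          (if j = l' then (w' i * z l - w i * z' l) * d⁻¹ * u j else 0) := by
        intro j
        by_cases hj : j = l
        · subst hj; simp [hll]
        · by_cases hj' : j = l' <;> simp [hj, hj', hll.symm]
      rw [sum_congr rfl fun j _ => this j, sum_add_distrib]
      simp only [sum_ite_eq', mem_univ, if_true]
    refine Prod.ext (funext fun i => ?_) (funext fun i => ?_)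
    · show hh p n k _ z i = w i
      rw [hh_apply, key]
      have : (w i * z' l' - w' i * z l') * d⁻¹ * z l + (w' i * z l - w i * z' l) * d⁻¹ * z l' =
          w i * (d * d⁻¹) := by rw [hd]; ring
      rw [this, mul_inv_cancel₀ hdet, mul_one]
    · show hh p n k _ z' i = w' i
      rw [hh_apply, key]
      have : (w i * z' l' - w' i * z l') * d⁻¹ * z' l + (w' i * z l - w i * z' l) * d⁻¹ * z' l' =
          w' i * (d * d⁻¹) := by rw [hd]; ring
      rw [this, mul_inv_cancel₀ hdet, mul_one]
  have := Pool.Agent.Q93.MK.card_ker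
    (((AddMonoidHom.flip (hh p n k)) z).prod ((AddMonoidHom.flip (hh p n k)) z')) hs
  rw [Fintype.card_prod, Fintype.card_fun, ZMod.card, Fintype.card_fin, ← pow_two] at this
  rw [← this]
  congr 2
  ext a
  simp only [mem_filter, mem_univ, true_and, AddMonoidHom.prod_apply, AddMonoidHom.flip_apply,
    Prod.mk_eq_zero]

/-- the power-saving bound -/
def PS (S : Finset (Fin m → ZMod p)) (e C : ℝ) : Prop :=
  ∀ (n : ℕ) (A : Finset (Fin m → V p n)), Free S A →
    (A.card : ℝ) ≤ C * (((p : ℝ) ^ n) ^ m * ((p : ℝ) ^ n) ^ (-e))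

/-- a free set in a class of a homomorphism -/
lemma class_bound {S : Finset (Fin m → ZMod p)} {e C : ℝ} (hC : 0 ≤ C) (h : PS S e C) {n k : ℕ}
    (φ : V p n →+ V p k) (T : Finset (Fin m → V p n)) (hT : Free S T) (u : Fin m → V p k)
    (hu : ∀ q ∈ T, ∀ j, φ (q j) = u j) :
    (T.card : ℝ) ≤ C * ((Nat.card φ.ker : ℝ) ^ m * (Nat.card φ.ker : ℝ) ^ (-e)) := by
  classical
  rcases T.eq_empty_or_nonempty with rfl | ⟨p0, hp0⟩
  · simp only [card_empty, Nat.cast_zero]; positivity
  set ψ : V p n →ₗ[ZMod p] V p k := φ.toZModLinearMap p with hψ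
  set K := LinearMap.ker ψ with hK
  set d := Module.finrank (ZMod p) K with hd
  set E : K ≃ₗ[ZMod p] (Fin d → ZMod p) := (Module.finBasis (ZMod p) K).equivFun with hE
  have hmem : ∀ x : V p n, x ∈ K ↔ φ x = 0 := fun x => Iff.rfl
  have hcard : (Nat.card φ.ker : ℝ) = (p : ℝ) ^ d := by
    have h1 : Nat.card φ.ker = Nat.card K := Nat.card_congr (Equiv.refl _)
    rw [h1, Nat.card_congr E.toEquiv, Nat.card_eq_fintype_card, Fintype.card_fun, ZMod.card,
      Fintype.card_fin]
    push_cast
    rfl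
  set T' : Finset (Fin m → V p d) := univ.filter fun q =>
    (fun j => p0 j + (E.symm (q j) : V p n)) ∈ T with hT'
  have hle : T.card ≤ T'.card := by
    have hk : ∀ q ∈ T, ∀ j, q j - p0 j ∈ K := by
      intro q hq j
      rw [hmem, map_sub, hu q hq j, hu p0 hp0 j, sub_self]
    have hex : ∀ q : Fin m → V p n, ∃ q' : Fin m → V p d, q ∈ T →
        q = fun j => p0 j + (E.symm (q' j) : V p n) := by
      intro q
      by_cases hq : q ∈ T
      · refine ⟨fun j => E ⟨_, hk q hq j⟩, fun _ => ?_⟩
        funext j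
        rw [LinearEquiv.symm_apply_apply]
        simp
      · exact ⟨0, fun h => absurd h hq⟩
    choose f hf using hex
    refine card_le_card_of_injOn f ?_ ?_
    · intro q hq
      have hq' := mem_coe.1 hq
      rw [mem_coe, hT', mem_filter]
      refine ⟨mem_univ _, ?_⟩
      rw [← hf q hq']
      exact hq'
    · intro q hq q' hq' hqq
      rw [hf q (mem_coe.1 hq), hf q' (mem_coe.1 hq'), hqq]
  have hfree : Free S T' := by
    intro x z hz
    have hz' : (E.symm z : V p n) ≠ 0 := by
      intro h0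
      apply hz
      have : E.symm z = 0 := Subtype.ext h0
      simpa using this
    obtain ⟨s, hs, hn⟩ := hT (fun j => p0 j + (E.symm (x j) : V p n)) (E.symm z : V p n) hz'
    refine ⟨s, hs, fun hin => hn ?_⟩
    have h1 := (mem_filter.1 hin).2
    convert h1 using 1
    funext j
    simp only [Pi.add_apply, tz, map_add, map_smul, Submodule.coe_add, Submodule.coe_smul]
    rw [add_assoc]
  rw [hcard]
  refine le_trans (by exact_mod_cast hle) (h d T' hfree)

/-- a set in which every point has at most one line of differences has a large free subset -/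
lemma few_times {V' : Type*} [AddCommGroup V'] [Module (ZMod p) V'] [Fintype V'] [DecidableEq V']
    {S : Finset (Fin m → ZMod p)} (hS : 2 ≤ S.card) (B : Finset (Fin m → V'))
    (hu : ∀ q ∈ B, ∃ z : V', ∀ z' ∈ lins S B q, z' = z) :
    ∃ T ⊆ B, Free S T ∧ B.card ≤ p ^ m * T.card := by
  classical
  obtain ⟨s1, hs1, s2, hs2, hs12⟩ := one_lt_card.1 hS
  obtain ⟨T, hT, hmax⟩ := exists_max_image (B.powerset.filter fun T => Free S T) card
    ⟨∅, mem_filter.2 ⟨mem_powerset.2 (empty_subset _), fun x z _ => ⟨s1, hs1, by simp⟩⟩⟩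
  rw [mem_filter, mem_powerset] at hT
  refine ⟨T, hT.1, hT.2, ?_⟩
  have hex : ∀ q : Fin m → V', ∃ z : V', q ∈ B → ∀ z' ∈ lins S B q, z' = z := by
    intro q
    by_cases hq : q ∈ B
    · obtain ⟨z, hz⟩ := hu q hq
      exact ⟨z, fun _ => hz⟩
    · exact ⟨0, fun h => absurd h hq⟩
  choose ζ hζ using hex
  let cl : (Fin m → V') → Finset (Fin m → V') := fun t =>
    (univ : Finset (Fin m → ZMod p)).image fun s => t + tz s (ζ t)
  have hcl : ∀ t, (cl t).card ≤ p ^ m := by
    intro t
    refine card_image_le.trans (le_of_eq ?_)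
    rw [card_univ, Fintype.card_fun, ZMod.card, Fintype.card_fin]
  have hsub : B ⊆ T.biUnion cl := by
    intro q hq
    by_cases hqT : q ∈ T
    · exact mem_biUnion.2 ⟨q, hqT, mem_image.2 ⟨0, mem_univ _, by
        have : tz (0 : Fin m → ZMod p) (ζ q) = 0 := by funext j; simp [tz]
        rw [this, add_zero]⟩⟩
    · have hins : ¬ Free S (insert q T) := by
        intro hcf
        have h3 := hmax (insert q T) (mem_filter.2 ⟨mem_powerset.2
          (insert_subset hq hT.1), hcf⟩)
        rw [card_insert_of_notMem hqT] at h3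
        omega
      unfold Free at hins
      push Not at hins
      obtain ⟨x, z, hz, hall⟩ := hins
      have hcop : (x, z) ∈ copies S B :=
        mem_copies.2 ⟨hz, fun s hs => (insert_subset hq hT.1) (hall s hs)⟩
      -- the vertex q
      obtain ⟨s, hs, hqs⟩ : ∃ s ∈ S, x + tz s z = q := by
        by_contra hcon
        push Not at hcon
        obtain ⟨s, hs, hn⟩ := hT.2 x z hz
        exact hn (mem_of_mem_insert_of_ne (hall s hs) (hcon s hs))
      -- another vertex
      obtain ⟨s', hs', hne⟩ : ∃ s' ∈ S, s' ≠ s := by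
        by_cases h : s1 = s
        · exact ⟨s2, hs2, fun h' => hs12 (h.trans h'.symm)⟩
        · exact ⟨s1, hs1, h⟩
      have hs'T : x + tz s' z ∈ T := by
        refine mem_of_mem_insert_of_ne (hall s' hs') ?_
        intro h
        rw [← hqs] at h
        exact hne (tz_inj hz (add_left_cancel h))
      have hline := hζ (x + tz s' z) (hT.1 hs'T) (rep p z)
        (mem_lins.2 ⟨(x, z), hcop, mem_image.2 ⟨s', hs', rfl⟩, rfl⟩)
      obtain ⟨c, hc⟩ := rep_spec (p := p) z
      have hz2 : z = ((c⁻¹ : (ZMod p)ˣ) : ZMod p) • ζ (x + tz s' z) := by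
        rw [← hline, hc, ← Units.smul_def, inv_smul_smul]
      refine mem_biUnion.2 ⟨_, hs'T, mem_image.2
        ⟨((c⁻¹ : (ZMod p)ˣ) : ZMod p) • (s - s'), mem_univ _, ?_⟩⟩
      rw [← tz_smul, ← hz2, tz_sub, ← hqs]
      abel
  calc B.card ≤ (T.biUnion cl).card := card_le_card hsub
    _ ≤ ∑ t ∈ T, (cl t).card := card_biUnion_le
    _ ≤ ∑ _t ∈ T, p ^ m := sum_le_sum fun t _ => hcl t
    _ = p ^ m * T.card := by rw [sum_const, smul_eq_mul, mul_comm]

/-- the points with a unique line in the kernel -/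
lemma uniq_bound {S : Finset (Fin m → ZMod p)} (hS : 2 ≤ S.card) {e C : ℝ} (he : 0 < e)
    (hC : 0 ≤ C) (h : PS S e C) {n k : ℕ} (φ : V p n →+ V p k)
    (A B : Finset (Fin m → V p n)) (hB : B ⊆ A) :
    ((B.filter fun q => uniq S A φ q).card : ℝ) ≤
      (p : ℝ) ^ m * C * ((p : ℝ) ^ n) ^ m * ((p : ℝ) ^ k / (p : ℝ) ^ n) ^ e := by
  classical
  have hp0 : (0 : ℝ) < p := by exact_mod_cast hpf.out.pos
  obtain ⟨s1, hs1, s2, hs2, hs12⟩ := one_lt_card.1 hS
  set B' := B.filter fun q => uniq S A φ q with hB'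
  set R : Finset (V p k) := univ.image φ with hR
  set Kc : ℝ := (Nat.card φ.ker : ℝ) with hKc
  have hKpos : (0 : ℝ) < Kc := by
    have : 0 < Nat.card φ.ker := Nat.card_pos
    rw [hKc]
    exact_mod_cast this
  have hprod : Kc * R.card = (p : ℝ) ^ n := by
    have h1 := φ.ker.card_mul_index
    rw [AddSubgroup.index_ker] at h1
    have h2 : Nat.card φ.range = R.card := by
      rw [hR, ← Set.ncard_coe_finset, coe_image, coe_univ, Set.image_univ,
        ← Nat.card_coe_set_eq]
      rfl
    rw [h2, Nat.card_eq_fintype_card (α := V p n), Fintype.card_fun, ZMod.card,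
      Fintype.card_fin] at h1
    rw [hKc]
    exact_mod_cast h1
  have hRk : (R.card : ℝ) ≤ (p : ℝ) ^ k := by
    have : R.card ≤ p ^ k := by
      refine (card_le_univ _).trans (le_of_eq ?_)
      rw [Fintype.card_fun, ZMod.card, Fintype.card_fin]
    exact_mod_cast this
  -- classes
  let cls : (Fin m → V p k) → Finset (Fin m → V p n) := fun w =>
    B'.filter fun q => (fun j => φ (q j)) = w
  have hcls : ∀ w, ((cls w).card : ℝ) ≤ (p : ℝ) ^ m * (C * (Kc ^ m * Kc ^ (-e))) := by
    intro w
    obtain ⟨T, hT, hfree, hcard⟩ := few_times hS (cls w) (by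
        intro q hq
        have hq' := mem_filter.1 hq
        have hqu := (mem_filter.1 hq'.1).2
        obtain ⟨z, hz⟩ := card_eq_one.1 hqu
        refine ⟨z, fun z' hz' => ?_⟩
        have : z' ∈ (lins S A q).filter fun z => φ z = 0 := by
          refine mem_filter.2 ⟨lins_mono ?_ q hz', ?_⟩
          · exact ((filter_subset _ _).trans (filter_subset _ _)).trans hB
          · obtain ⟨t, ht, _, hrt⟩ := mem_lins.1 hz'
            have h3 := (mem_copies.1 ht).2
            have e1 := (mem_filter.1 (h3 s1 hs1)).2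
            have e2 := (mem_filter.1 (h3 s2 hs2)).2
            obtain ⟨j, hj⟩ := Function.ne_iff.1 hs12
            have e3 : φ (t.1 j + s1 j • t.2) = φ (t.1 j + s2 j • t.2) :=
              (congrFun e1 j).trans (congrFun e2 j).symm
            rw [map_add, map_add] at e3
            have e4 := add_left_cancel e3
            rw [ZMod.map_smul, ZMod.map_smul] at e4
            have e5 : (s1 j - s2 j) • φ t.2 = 0 := by rw [sub_smul, e4, sub_self]
            have e6 : φ t.2 = 0 := (smul_eq_zero.1 e5).resolve_left (sub_ne_zero.2 hj)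
            obtain ⟨c, hc⟩ := rep_spec (p := p) t.2
            rw [← hrt, hc, Units.smul_def, ZMod.map_smul, e6, smul_zero]
        rw [hz] at this
        exact mem_singleton.1 this)
    have hSb := class_bound hC h φ T hfree w (fun q hq j => by
      have := (mem_filter.1 (hT hq)).2
      exact congrFun this j)
    calc ((cls w).card : ℝ) ≤ ((p ^ m * T.card : ℕ) : ℝ) := by exact_mod_cast hcard
      _ = (p : ℝ) ^ m * (T.card : ℝ) := by push_cast; ring
      _ ≤ (p : ℝ) ^ m * (C * (Kc ^ m * Kc ^ (-e))) := mul_le_mul_of_nonneg_left hSb (by positivity)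
  set RR : Finset (Fin m → V p k) := Fintype.piFinset fun _ => R with hRR
  have hsum : B'.card = ∑ w ∈ RR, (cls w).card :=
    card_eq_sum_card_fiberwise (f := fun (q : Fin m → V p n) (j : Fin m) => φ (q j)) (t := RR)
      (fun q _ => mem_coe.2 (Fintype.mem_piFinset.2 fun j => mem_image_of_mem _ (mem_univ _)))
  have hRRc : (RR.card : ℝ) = (R.card : ℝ) ^ m := by
    rw [hRR, Fintype.card_piFinset_const]; push_cast; rfl
  have hpn : (0 : ℝ) < (p : ℝ) ^ n := by positivity
  calc (B'.card : ℝ) = ∑ w ∈ RR, ((cls w).card : ℝ) := by rw [hsum]; push_cast; rfl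
    _ ≤ ∑ _w ∈ RR, (p : ℝ) ^ m * (C * (Kc ^ m * Kc ^ (-e))) := sum_le_sum fun w _ => hcls w
    _ = (R.card : ℝ) ^ m * ((p : ℝ) ^ m * (C * (Kc ^ m * Kc ^ (-e)))) := by
        rw [sum_const, nsmul_eq_mul, hRRc]
    _ = (p : ℝ) ^ m * C * ((p : ℝ) ^ n) ^ m * Kc ^ (-e) := by
        rw [← hprod, mul_pow]
        ring
    _ ≤ (p : ℝ) ^ m * C * ((p : ℝ) ^ n) ^ m * ((p : ℝ) ^ k / (p : ℝ) ^ n) ^ e := by
        refine mul_le_mul_of_nonneg_left ?_ (by positivity)
        have e2 : ((p : ℝ) ^ k / (p : ℝ) ^ n) ^ e = ((p : ℝ) ^ n / (p : ℝ) ^ k) ^ (-e) := by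
          rw [Real.rpow_neg (by positivity), ← Real.inv_rpow (by positivity), inv_div]
        rw [e2]
        refine Real.rpow_le_rpow_of_nonpos (by positivity) ?_ (by linarith)
        rw [div_le_iff₀ (by positivity), ← hprod]
        exact mul_le_mul_of_nonneg_left hRk hKpos.le

/-- **few points of given degree** -/
lemma few_of_degree {S : Finset (Fin m → ZMod p)} (hS : 2 ≤ S.card) {e C : ℝ} (he : 0 < e)
    (hC : 0 ≤ C) (h : PS S e C) {n : ℕ}
    (A B : Finset (Fin m → V p n)) (hB : B ⊆ A) (τ : ℕ) (hτ : 0 < τ)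
    (h1 : ∀ q ∈ B, τ ≤ (lins S A q).card) (h2 : ∀ q ∈ B, (lins S A q).card ≤ 2 * τ) :
    (B.card : ℝ) ≤ 8 * (p : ℝ) ^ (m + 1) * C * ((p : ℝ) ^ n) ^ m *
      (4 * p * τ / (p : ℝ) ^ n) ^ e := by
  classical
  have hp0 : (0 : ℝ) < p := by exact_mod_cast hpf.out.pos
  have hp1 : 1 < p := hpf.out.one_lt
  set k := Nat.log p (4 * τ) + 1 with hk
  have hQ1 : 4 * τ ≤ p ^ k := (Nat.lt_pow_succ_log_self hp1 _).le
  have hQ2 : p ^ k ≤ 4 * p * τ := by
    have := Nat.pow_log_le_self p (show 4 * τ ≠ 0 by omega)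
    rw [hk, pow_succ]
    calc p ^ Nat.log p (4 * τ) * p ≤ (4 * τ) * p := Nat.mul_le_mul_right _ this
      _ = 4 * p * τ := by ring
  obtain ⟨a, ha⟩ : ∃ a : Fin k → V p n,
      B.card ≤ 8 * p * (B.filter fun q => uniq S A (hh p n k a) q).card := by
    by_contra hcon
    push Not at hcon
    have e1 : ∑ a : Fin k → V p n, (B.filter fun q => uniq S A (hh p n k a) q).card =
        ∑ q ∈ B, (univ.filter fun a => uniq S A (hh p n k a) q).card := by
      simp_rw [card_filter]
      rw [sum_comm]
    have e2 : 8 * p * ∑ a : Fin k → V p n, (B.filter fun q => uniq S A (hh p n k a) q).card <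
        Fintype.card (Fin k → V p n) * B.card := by
      rw [mul_sum]
      calc ∑ a : Fin k → V p n, 8 * p * (B.filter fun q => uniq S A (hh p n k a) q).card
          < ∑ _a : Fin k → V p n, B.card :=
            sum_lt_sum_of_nonempty univ_nonempty fun a _ => hcon a
        _ = Fintype.card (Fin k → V p n) * B.card := by rw [sum_const, smul_eq_mul, card_univ]
    have e3 : Fintype.card (Fin k → V p n) * B.card ≤
        8 * p * ∑ q ∈ B, (univ.filter fun a => uniq S A (hh p n k a) q).card := by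
      rw [mul_sum]
      calc Fintype.card (Fin k → V p n) * B.card = ∑ q ∈ B, Fintype.card (Fin k → V p n) := by
            rw [sum_const, smul_eq_mul, mul_comm]
        _ ≤ _ := sum_le_sum fun q hq => uniq_many S (hh p n k) (p ^ k) (by positivity)
            (fun z hz => hh_one n k z hz)
            (fun z z' hz hz' hr hr' hne => hh_two n k z z' hz hz' hr hr' hne)
            A q τ (h1 q hq) (h2 q hq) hQ1 hQ2
    rw [← e1] at e3
    omega
  have h3 := uniq_bound hS he hC h (hh p n k a) A B hB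
  calc (B.card : ℝ) ≤ ((8 * p * (B.filter fun q => uniq S A (hh p n k a) q).card : ℕ) : ℝ) := by
        exact_mod_cast ha
    _ = 8 * p * ((B.filter fun q => uniq S A (hh p n k a) q).card : ℝ) := by push_cast; ring
    _ ≤ 8 * p * ((p : ℝ) ^ m * C * ((p : ℝ) ^ n) ^ m * ((p : ℝ) ^ k / (p : ℝ) ^ n) ^ e) :=
        mul_le_mul_of_nonneg_left h3 (by positivity)
    _ ≤ 8 * p * ((p : ℝ) ^ m * C * ((p : ℝ) ^ n) ^ m * (4 * p * τ / (p : ℝ) ^ n) ^ e) := by
        refine mul_le_mul_of_nonneg_left (mul_le_mul_of_nonneg_left ?_ (by positivity))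
          (by positivity)
        refine Real.rpow_le_rpow (by positivity) ?_ (by linarith)
        refine div_le_div_of_nonneg_right ?_ (by positivity)
        exact_mod_cast hQ2
    _ = 8 * (p : ℝ) ^ (m + 1) * C * ((p : ℝ) ^ n) ^ m * (4 * p * τ / (p : ℝ) ^ n) ^ e := by
        rw [pow_succ]; ring

end Pool.Agent.Q93.HP
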