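import Pool.Agent.Q93.MK.Hash

set_option autoImplicit false

open Finset

namespace Pool.Agent.Q93.HP

/-! # Homothetic copies `x + S ⊗ z` of a finite set `S ⊆ F_p^m` in `V^m` -/

section
variable {p m : ℕ} [hpf : Fact p.Prime] {V : Type*} [AddCommGroup V] [Module (ZMod p) V]

/-- the vector `s ⊗ z` -/
def tz (s : Fin m → ZMod p) (z : V) : Fin m → V := fun j => s j • z

lemma tz_sub (s t : Fin m → ZMod p) (z : V) : tz (s - t) z = tz s z - tz t z := by
  funext j; simp [tz, sub_smul]

lemma tz_smul (s : Fin m → ZMod p) (c : ZMod p) (z : V) : tz s (c • z) = tz (c • s) z := by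
  funext j; simp [tz, smul_smul, mul_comm]

lemma tz_inj {s t : Fin m → ZMod p} {z : V} (hz : z ≠ 0) (h : tz s z = tz t z) : s = t := by
  funext j
  have := congrFun h j
  have h1 : (s j - t j) • z = 0 := by
    rw [sub_smul, sub_eq_zero]; exact this
  rcases smul_eq_zero.1 h1 with h2 | h2
  · exact sub_eq_zero.1 h2
  · exact absurd h2 hz

/-- `A` contains no nontrivial copy of `S` -/
def Free (S : Finset (Fin m → ZMod p)) (A : Finset (Fin m → V)) : Prop :=
  ∀ (x : Fin m → V) (z : V), z ≠ 0 → ∃ s ∈ S, x + tz s z ∉ A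

lemma Free.mono {S : Finset (Fin m → ZMod p)} {A B : Finset (Fin m → V)} (h : A ⊆ B)
    (hB : Free S B) : Free S A := fun x z hz => by
  obtain ⟨s, hs, hn⟩ := hB x z hz
  exact ⟨s, hs, fun h' => hn (h h')⟩

end

section
variable {p m : ℕ} [hpf : Fact p.Prime] {V : Type*} [AddCommGroup V] [Module (ZMod p) V]
  [Fintype V] [DecidableEq V] (S : Finset (Fin m → ZMod p))

/-- the nontrivial copies of `S` in `A` -/
def copies (A : Finset (Fin m → V)) : Finset ((Fin m → V) × V) :=
  univ.filter fun t => t.2 ≠ 0 ∧ ∀ s ∈ S, t.1 + tz s t.2 ∈ A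

variable {S}

lemma mem_copies {A : Finset (Fin m → V)} {t : (Fin m → V) × V} :
    t ∈ copies S A ↔ t.2 ≠ 0 ∧ ∀ s ∈ S, t.1 + tz s t.2 ∈ A := by
  unfold copies
  rw [mem_filter]
  exact ⟨fun h => h.2, fun h => ⟨mem_univ _, h⟩⟩

lemma free_iff (A : Finset (Fin m → V)) : Free S A ↔ copies S A = ∅ := by
  unfold Free copies
  rw [filter_eq_empty_iff]
  constructor
  · rintro h ⟨x, z⟩ _ ⟨hz, h1⟩
    obtain ⟨s, hs, hn⟩ := h x z hz
    exact hn (h1 s hs)
  · intro h x z hz
    by_contra hcon
    push Not at hcon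
    exact h (mem_univ (x, z)) ⟨hz, hcon⟩

lemma copies_mono {A B : Finset (Fin m → V)} (h : A ⊆ B) : copies S A ⊆ copies S B := by
  intro t ht
  rw [mem_copies] at ht ⊢
  exact ⟨ht.1, fun s hs => h (ht.2 s hs)⟩

variable (S) in
/-- the vertices of a copy -/
def vert (t : (Fin m → V) × V) : Finset (Fin m → V) := S.image fun s => t.1 + tz s t.2

variable (S) in
/-- the copies in `A` through the point `q` -/
def thr (A : Finset (Fin m → V)) (q : Fin m → V) : Finset ((Fin m → V) × V) :=
  (copies S A).filter fun t => q ∈ vert S t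

/-- a canonical representative of the line through `z` -/
noncomputable def rep (p : ℕ) {V : Type*} [AddCommGroup V] [Module (ZMod p) V] (z : V) : V :=
  Quotient.out (Quotient.mk (MulAction.orbitRel (ZMod p)ˣ V) z)

omit [Fintype V] [DecidableEq V] in
lemma rep_spec (z : V) : ∃ c : (ZMod p)ˣ, rep p z = c • z := by
  have h : (MulAction.orbitRel (ZMod p)ˣ V).r (rep p z) z := Quotient.mk_out z
  obtain ⟨c, hc⟩ := h
  exact ⟨c, hc.symm⟩

omit [Fintype V] [DecidableEq V] in
lemma rep_smul (c : (ZMod p)ˣ) (z : V) : rep p (c • z) = rep p z := by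
  unfold rep
  congr 1
  apply Quotient.sound
  exact ⟨c, rfl⟩

omit [Fintype V] [DecidableEq V] in
lemma rep_rep (z : V) : rep p (rep p z) = rep p z := by
  obtain ⟨c, hc⟩ := rep_spec (p := p) z
  rw [hc, rep_smul, hc]

omit [Fintype V] [DecidableEq V] in
lemma rep_ne_zero {z : V} (hz : z ≠ 0) : rep p z ≠ 0 := by
  obtain ⟨c, hc⟩ := rep_spec (p := p) z
  rw [hc]
  intro h
  apply hz
  have := congrArg (fun v => c⁻¹ • v) h
  simpa using this

variable (S) in
/-- the lines of differences of the copies in `A` through the point `q` -/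
noncomputable def lins (A : Finset (Fin m → V)) (q : Fin m → V) : Finset V :=
  (thr S A q).image fun t => rep p t.2

lemma mem_lins {A : Finset (Fin m → V)} {q : Fin m → V} {u : V} :
    u ∈ lins S A q ↔ ∃ t ∈ copies S A, q ∈ vert S t ∧ rep p t.2 = u := by
  unfold lins thr
  rw [mem_image]
  constructor
  · rintro ⟨t, ht, hu⟩
    exact ⟨t, (mem_filter.1 ht).1, (mem_filter.1 ht).2, hu⟩
  · rintro ⟨t, h1, h2, h3⟩
    exact ⟨t, mem_filter.2 ⟨h1, h2⟩, h3⟩

lemma lins_mono {A B : Finset (Fin m → V)} (h : A ⊆ B) (q : Fin m → V) :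
    lins S A q ⊆ lins S B q := by
  intro z hz
  obtain ⟨t, h1, h2, h3⟩ := mem_lins.1 hz
  exact mem_lins.2 ⟨t, copies_mono h h1, h2, h3⟩

lemma ne_zero_of_mem_lins {A : Finset (Fin m → V)} {q : Fin m → V} {z : V}
    (h : z ∈ lins S A q) : z ≠ 0 := by
  obtain ⟨t, h1, _, h3⟩ := mem_lins.1 h
  rw [← h3]
  exact rep_ne_zero (mem_copies.1 h1).1

lemma rep_of_mem_lins {A : Finset (Fin m → V)} {q : Fin m → V} {z : V}
    (h : z ∈ lins S A q) : rep p z = z := by
  obtain ⟨t, _, _, h3⟩ := mem_lins.1 h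
  rw [← h3, rep_rep]

/-- removing a point destroys at least `|lins|` copies -/
lemma card_copies_erase (A : Finset (Fin m → V)) (q : Fin m → V) :
    (copies S (A.erase q)).card + (lins S A q).card ≤ (copies S A).card := by
  have h1 : Disjoint (copies S (A.erase q)) (thr S A q) := by
    rw [disjoint_left]
    intro t ht ht'
    have h2 := (mem_copies.1 ht).2
    obtain ⟨s, hs, hq⟩ := mem_image.1 (mem_filter.1 ht').2
    exact (mem_erase.1 (h2 s hs)).1 hq
  calc (copies S (A.erase q)).card + (lins S A q).card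
      ≤ (copies S (A.erase q)).card + (thr S A q).card := Nat.add_le_add_left card_image_le _
    _ = (copies S (A.erase q) ∪ thr S A q).card := (card_union_of_disjoint h1).symm
    _ ≤ (copies S A).card := card_le_card (union_subset (copies_mono (erase_subset _ _))
        (filter_subset _ _))

/-- peeling -/
lemma peel (τ : ℕ) : ∀ (n : ℕ) (A : Finset (Fin m → V)), A.card = n →
    ∃ A' ⊆ A, (∀ q ∈ A', (lins S A' q).card < τ) ∧ (∀ q ∈ A \ A', τ ≤ (lins S A q).card) ∧
      (A \ A').card * τ + (copies S A').card ≤ (copies S A).card := by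
  intro n
  induction n with
  | zero =>
    intro A hA
    rw [card_eq_zero] at hA
    subst hA
    exact ⟨∅, Subset.rfl, by simp, by simp, by simp⟩
  | succ n ih =>
    intro A hA
    by_cases h : ∀ q ∈ A, (lins S A q).card < τ
    · exact ⟨A, Subset.rfl, h, by simp, by simp⟩
    · push Not at h
      obtain ⟨q, hq, hqτ⟩ := h
      obtain ⟨A', hA', h1, h2, h3⟩ := ih (A.erase q) (by rw [card_erase_of_mem hq, hA]; rfl)
      have hqA' : q ∉ A' := fun h => notMem_erase q A (hA' h)
      have hsd : A \ A' = insert q (A.erase q \ A') := by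
        ext x
        simp only [mem_sdiff, mem_insert, mem_erase]
        constructor
        · rintro ⟨hp1, hp2⟩
          by_cases hpq : x = q
          · exact Or.inl hpq
          · exact Or.inr ⟨⟨hpq, hp1⟩, hp2⟩
        · rintro (rfl | ⟨⟨_, hp1⟩, hp2⟩)
          · exact ⟨hq, hqA'⟩
          · exact ⟨hp1, hp2⟩
      refine ⟨A', hA'.trans (erase_subset _ _), h1, ?_, ?_⟩
      · intro x hx
        rw [hsd] at hx
        rcases mem_insert.1 hx with rfl | hx
        · exact hqτ
        · exact (h2 x hx).trans (card_le_card (lins_mono (erase_subset _ _) x))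
      · have hcard : (A \ A').card = (A.erase q \ A').card + 1 := by
          rw [hsd, card_insert_of_notMem]
          simp
        rw [hcard]
        have h4 := card_copies_erase (S := S) A q
        nlinarith

end

section hashing
variable {p m : ℕ} [hpf : Fact p.Prime] {V : Type*} [AddCommGroup V] [Module (ZMod p) V]
  [Fintype V] [DecidableEq V] (S : Finset (Fin m → ZMod p))
  {W G : Type*} [AddCommGroup W] [AddCommGroup G]
  [Fintype G] [Fintype W] [DecidableEq W] [DecidableEq G]

/-- the points through which exactly one line of differences is in the kernel -/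
def uniq (A : Finset (Fin m → V)) (φ : V →+ W) (q : Fin m → V) : Prop :=
  ((lins S A q).filter fun z => φ z = 0).card = 1

noncomputable instance (A : Finset (Fin m → V)) (φ : V →+ W) (q : Fin m → V) :
    Decidable (uniq S A φ q) := by
  unfold uniq; infer_instance

omit [Fintype W] [DecidableEq G] in
/-- a second moment estimate -/
lemma uniq_many (Φ : G →+ (V →+ W)) (Q : ℕ) (hQ : 0 < Q)
    (h1 : ∀ z : V, z ≠ 0 → (univ.filter fun a => Φ a z = 0).card * Q = Fintype.card G)
    (h2 : ∀ z z' : V, z ≠ 0 → z' ≠ 0 → rep p z = z → rep p z' = z' → z ≠ z' →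
      (univ.filter fun a => Φ a z = 0 ∧ Φ a z' = 0).card * Q ^ 2 = Fintype.card G)
    (A : Finset (Fin m → V)) (q : Fin m → V) (τ : ℕ) (hτ1 : τ ≤ (lins S A q).card)
    (hτ2 : (lins S A q).card ≤ 2 * τ) (hQ1 : 4 * τ ≤ Q) (hQ2 : Q ≤ 4 * p * τ) :
    Fintype.card G ≤ 8 * p * (univ.filter fun a => uniq S A (Φ a) q).card := by
  classical
  set Dq := lins S A q with hD
  set L := Dq.card with hL
  let X : G → ℕ := fun a => (Dq.filter fun z => Φ a z = 0).card
  -- first moment
  have m1 : (∑ a : G, X a) * Q = L * Fintype.card G := by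
    have e : ∑ a : G, X a = ∑ z ∈ Dq, (univ.filter fun a => Φ a z = 0).card := by
      simp only [X, card_filter]
      rw [sum_comm]
    rw [e, sum_mul]
    rw [sum_congr rfl fun z hz => h1 z (ne_zero_of_mem_lins hz), sum_const, smul_eq_mul]
  -- second moment
  have m2 : (∑ a : G, X a * X a) * Q ^ 2 = L * Fintype.card G * Q +
      L * (L - 1) * Fintype.card G := by
    have e : ∑ a : G, X a * X a = ∑ z ∈ Dq, ∑ z' ∈ Dq,
        (univ.filter fun a => Φ a z = 0 ∧ Φ a z' = 0).card := by
      have e1 : ∀ a : G, X a * X a = ∑ z ∈ Dq, ∑ z' ∈ Dq,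
          if Φ a z = 0 ∧ Φ a z' = 0 then 1 else 0 := by
        intro a
        simp only [X, card_filter]
        rw [sum_mul_sum]
        refine sum_congr rfl fun z _ => sum_congr rfl fun z' _ => ?_
        by_cases hz : Φ a z = 0 <;> by_cases hz' : Φ a z' = 0 <;> simp [hz, hz']
      simp_rw [e1, card_filter]
      rw [sum_comm]
      refine sum_congr rfl fun z _ => ?_
      rw [sum_comm]
    have e2 : ∀ z ∈ Dq, (∑ z' ∈ Dq, (univ.filter fun a => Φ a z = 0 ∧ Φ a z' = 0).card) * Q ^ 2 =
        Fintype.card G * Q + (L - 1) * Fintype.card G := by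
      intro z hz
      have hz0 := ne_zero_of_mem_lins hz
      rw [← add_sum_erase Dq _ hz, add_mul]
      congr 1
      · have : (univ.filter fun a : G => Φ a z = 0 ∧ Φ a z = 0) =
            univ.filter fun a : G => Φ a z = 0 := by
          ext a; simp
        rw [this, pow_two, ← mul_assoc, h1 z hz0]
      · rw [sum_mul, sum_congr rfl fun z' hz' => h2 z z' hz0
          (ne_zero_of_mem_lins (mem_erase.1 hz').2) (rep_of_mem_lins hz)
          (rep_of_mem_lins (mem_erase.1 hz').2) (mem_erase.1 hz').1.symm, sum_const,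
          smul_eq_mul, card_erase_of_mem hz]
    rw [e, sum_mul, sum_congr rfl e2, sum_const, smul_eq_mul]
    ring
  -- pointwise: 2 X ≤ [X = 1] + X X
  have hpt : ∀ a : G, 2 * X a ≤ (if uniq S A (Φ a) q then 1 else 0) + X a * X a := by
    intro a
    have hu : uniq S A (Φ a) q ↔ X a = 1 := Iff.rfl
    by_cases h : X a = 1
    · rw [if_pos (hu.2 h), h]
    · rw [if_neg (fun h' => h (hu.1 h'))]
      have : X a = 0 ∨ 2 ≤ X a := by omega
      rcases this with h0 | h2'
      · rw [h0]
      · nlinarith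
  have hsum : 2 * ∑ a : G, X a ≤ (univ.filter fun a => uniq S A (Φ a) q).card +
      ∑ a : G, X a * X a := by
    rw [card_filter, ← sum_add_distrib, mul_sum]
    exact sum_le_sum fun a _ => hpt a
  set U := (univ.filter fun a => uniq S A (Φ a) q).card with hU
  set g := Fintype.card G with hg
  have h3 : 2 * (L * g) * Q ≤ U * Q ^ 2 + (L * g * Q + L * (L - 1) * g) := by
    calc 2 * (L * g) * Q = (2 * ∑ a : G, X a) * Q ^ 2 := by rw [← m1]; ring
      _ ≤ (U + ∑ a : G, X a * X a) * Q ^ 2 := Nat.mul_le_mul_right _ hsum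
      _ = U * Q ^ 2 + (L * g * Q + L * (L - 1) * g) := by rw [add_mul, m2]
  have hLQ : 2 * L ≤ Q := by omega
  have h4 : L * (L - 1) * g ≤ L * L * g :=
    Nat.mul_le_mul_right _ (Nat.mul_le_mul_left _ (Nat.sub_le _ _))
  have h5 : L * g * Q ≤ U * Q ^ 2 + L * L * g := by
    have : 2 * (L * g) * Q = L * g * Q + L * g * Q := by ring
    omega
  have h6 : 2 * (L * L * g) ≤ L * g * Q := by
    calc 2 * (L * L * g) = (L * g) * (2 * L) := by ring
      _ ≤ (L * g) * Q := Nat.mul_le_mul_left _ hLQ
  have h7 : L * g * Q ≤ 2 * (U * Q ^ 2) := by omega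
  have h8 : L * g ≤ 2 * U * Q := by
    have : (L * g) * Q ≤ (2 * U * Q) * Q := by
      calc (L * g) * Q ≤ 2 * (U * Q ^ 2) := h7
        _ = (2 * U * Q) * Q := by ring
    exact Nat.le_of_mul_le_mul_right this hQ
  have hτ0 : 0 < τ := by
    rcases Nat.eq_zero_or_pos τ with h0 | h0
    · rw [h0, mul_zero] at hQ2; omega
    · exact h0
  have h9 : τ * g ≤ (8 * p * U) * τ := by
    calc τ * g ≤ L * g := Nat.mul_le_mul_right _ hτ1
      _ ≤ 2 * U * Q := h8
      _ ≤ 2 * U * (4 * p * τ) := Nat.mul_le_mul_left _ hQ2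
      _ = (8 * p * U) * τ := by ring
  rw [mul_comm τ g] at h9
  exact Nat.le_of_mul_le_mul_right h9 hτ0

end hashing

end Pool.Agent.Q93.HP
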