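import Pool.Agent.Q93.HP.Core

set_option autoImplicit false

open Finset

namespace Pool.Agent.Q93.HP

variable {p m : ℕ} [hpf : Fact p.Prime]

/-- the removal lemma -/
def RL (S : Finset (Fin m → ZMod p)) (D κ : ℝ) : Prop :=
  ∀ (n : ℕ) (A : Finset (Fin m → V p n)) (ε : ℝ), 0 < ε →
    ((copies S A).card : ℝ) < κ * ε ^ D * (((p : ℝ) ^ n) ^ m * (p : ℝ) ^ n) →
    ∃ A' ⊆ A, Free S A' ∧ ((A \ A').card : ℝ) ≤ ε * ((p : ℝ) ^ n) ^ m

/-- supersaturation -/
def SS (S : Finset (Fin m → ZMod p)) (D κ : ℝ) : Prop :=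
  ∀ (n : ℕ) (A : Finset (Fin m → V p n)),
    κ * ((A.card : ℝ) / ((p : ℝ) ^ n) ^ m) ^ D * (((p : ℝ) ^ n) ^ m * (p : ℝ) ^ n) ≤
      (copies S A).card + A.card

section
variable {V' : Type*} [AddCommGroup V'] [Module (ZMod p) V'] [Fintype V'] [DecidableEq V']
  {S : Finset (Fin m → ZMod p)}

lemma free_of_lins (hS : S.Nonempty) (A : Finset (Fin m → V'))
    (h : ∀ q ∈ A, (lins S A q).card < 1) : Free S A := by
  intro x z hz
  by_contra hcon
  push Not at hcon
  obtain ⟨s, hs⟩ := hS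
  have := h _ (hcon s hs)
  rw [Nat.lt_one_iff, card_eq_zero] at this
  have hm : rep p z ∈ lins S A (x + tz s z) :=
    mem_lins.2 ⟨(x, z), mem_copies.2 ⟨hz, hcon⟩, mem_image.2 ⟨s, hs, rfl⟩, rfl⟩
  rw [this] at hm
  exact absurd hm (notMem_empty _)

lemma delete (hS : S.Nonempty) (A : Finset (Fin m → V')) :
    ∃ A' ⊆ A, Free S A' ∧ (A \ A').card ≤ (copies S A).card := by
  obtain ⟨A', h1, h2, _, h4⟩ := peel (S := S) 1 A.card A rfl
  exact ⟨A', h1, free_of_lins hS A' h2, by omega⟩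

end

lemma sdiff_card {α : Type*} [DecidableEq α] (A A1 A' : Finset α) :
    ((A \ A').card : ℝ) ≤ ((A \ A1).card : ℝ) + ((A1 \ A').card : ℝ) := by
  have hsub : A \ A' ⊆ (A \ A1) ∪ (A1 \ A') := by
    intro q hq
    obtain ⟨h3, h4⟩ := mem_sdiff.1 hq
    by_cases h5 : q ∈ A1
    · exact mem_union_right _ (mem_sdiff.2 ⟨h5, h4⟩)
    · exact mem_union_left _ (mem_sdiff.2 ⟨h3, h5⟩)
  exact_mod_cast (card_le_card hsub).trans (card_union_le _ _)

lemma stage {S : Finset (Fin m → ZMod p)} (hS : 2 ≤ S.card) {e C : ℝ} (he : 0 < e)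
    (hC : 0 ≤ C) (h : PS S e C) {n : ℕ} :
    ∀ (i : ℕ) (A : Finset (Fin m → V p n)), (∀ q ∈ A, (lins S A q).card < 2 ^ i) →
    ∃ A' ⊆ A, Free S A' ∧ ((A \ A').card : ℝ) ≤
      ∑ l ∈ range i, 8 * (p : ℝ) ^ (m + 1) * C * ((p : ℝ) ^ n) ^ m *
        (4 * p * (2 ^ l : ℕ) / (p : ℝ) ^ n) ^ e := by
  intro i
  have hSn : S.Nonempty := card_pos.1 (by omega)
  induction i with
  | zero =>
    intro A hA
    exact ⟨A, Subset.rfl, free_of_lins hSn A (by simpa using hA), by simp⟩
  | succ i ih =>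
    intro A hA
    obtain ⟨A1, hA1, h1, h2, _⟩ := peel (S := S) (2 ^ i) A.card A rfl
    obtain ⟨A', hA', hcf, hcard⟩ := ih A1 h1
    refine ⟨A', hA'.trans hA1, hcf, ?_⟩
    have hB := few_of_degree hS he hC h A (A \ A1) sdiff_subset (2 ^ i) (by positivity) h2
      (fun q hq => by
        have := hA q (mem_sdiff.1 hq).1
        rw [pow_succ] at this
        omega)
    have hc2 := sdiff_card A A1 A'
    rw [sum_range_succ]
    linarith

/-- power saving implies the removal lemma -/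
theorem RL_of_PS {S : Finset (Fin m → ZMod p)} (hS : 2 ≤ S.card) {e C : ℝ} (he : 0 < e)
    (hC : 0 < C) (h : PS S e C) : ∃ κ : ℝ, 0 < κ ∧ RL S (1 + 1 / e) κ := by
  have hp0 : (0 : ℝ) < p := by exact_mod_cast hpf.out.pos
  have hSn : S.Nonempty := card_pos.1 (by omega)
  set x : ℝ := (2 : ℝ) ^ e with hx
  have hx1 : 1 < x := Real.one_lt_rpow (by norm_num) he
  set P : ℝ := 8 * (p : ℝ) ^ (m + 1) * C with hP
  have hP0 : 0 < P := by positivity
  set E : ℝ := P * (4 * p : ℝ) ^ e / (x - 1) with hE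
  have hE0 : 0 < E := div_pos (by positivity) (by linarith)
  refine ⟨1 / (4 * (2 * E) ^ (1 / e)), by positivity, ?_⟩
  intro n A ε hε hcor
  set N : ℝ := (p : ℝ) ^ n with hN
  have hN0 : 0 < N := by positivity
  set y : ℝ := (ε / (2 * E)) ^ (1 / e) with hy
  have hy0 : 0 < y := Real.rpow_pos_of_pos (by positivity) _
  have hcor' : ((copies S A).card : ℝ) < ε * y / 4 * (N ^ m * N) := by
    refine lt_of_lt_of_eq hcor ?_
    rw [hy, Real.div_rpow hε.le (by positivity), Real.rpow_add hε, Real.rpow_one]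
    ring
  by_cases hNy : N * y < 1
  · obtain ⟨A', h1, h2, h3⟩ := delete hSn A
    refine ⟨A', h1, h2, ?_⟩
    have h4 : ((A \ A').card : ℝ) ≤ ((copies S A).card : ℝ) := by exact_mod_cast h3
    have h5 : ε * y / 4 * (N ^ m * N) ≤ ε * N ^ m := by
      have e' : ε * y / 4 * (N ^ m * N) = ε * N ^ m * ((N * y) / 4) := by ring
      rw [e']
      exact mul_le_of_le_one_right (by positivity) (by linarith)
    linarith
  · push Not at hNy
    set K := Nat.log 2 ⌊N * y⌋₊ with hK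
    have hfl : 1 ≤ ⌊N * y⌋₊ := Nat.le_floor (by rw [Nat.cast_one]; exact hNy)
    have hK1 : ((2 ^ K : ℕ) : ℝ) ≤ N * y := by
      have h1 : 2 ^ K ≤ ⌊N * y⌋₊ := Nat.pow_log_le_self 2 (by omega)
      calc ((2 ^ K : ℕ) : ℝ) ≤ (⌊N * y⌋₊ : ℝ) := by exact_mod_cast h1
        _ ≤ N * y := Nat.floor_le (by positivity)
    have hK2 : N * y < 2 * ((2 ^ K : ℕ) : ℝ) := by
      have h1 : ⌊N * y⌋₊ < 2 ^ (K + 1) := Nat.lt_pow_succ_log_self (by norm_num) _
      have h2 : ⌊N * y⌋₊ + 1 ≤ 2 ^ (K + 1) := h1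
      have h3 : ((⌊N * y⌋₊ + 1 : ℕ) : ℝ) ≤ ((2 ^ (K + 1) : ℕ) : ℝ) := by exact_mod_cast h2
      have h4 := Nat.lt_floor_add_one (N * y)
      push_cast at h3 ⊢
      rw [pow_succ] at h3
      linarith
    have hKpos : (0 : ℝ) < ((2 ^ K : ℕ) : ℝ) := by positivity
    obtain ⟨A1, hA1, h1, _, h3⟩ := peel (S := S) (2 ^ K) A.card A rfl
    obtain ⟨A', hA', hcf, hcard⟩ := stage hS he hC.le h K A1 h1
    refine ⟨A', hA'.trans hA1, hcf, ?_⟩
    have hR0 : ((A \ A1).card : ℝ) ≤ ε * N ^ m / 2 := by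
      have h4 : (A \ A1).card * 2 ^ K ≤ (copies S A).card := by omega
      have h5 : ((A \ A1).card : ℝ) * ((2 ^ K : ℕ) : ℝ) ≤ ((copies S A).card : ℝ) := by
        exact_mod_cast h4
      have h6 : ((A \ A1).card : ℝ) * ((2 ^ K : ℕ) : ℝ) ≤ ε * N ^ m / 2 * ((2 ^ K : ℕ) : ℝ) := by
        calc ((A \ A1).card : ℝ) * ((2 ^ K : ℕ) : ℝ) ≤ ((copies S A).card : ℝ) := h5
          _ ≤ ε * y / 4 * (N ^ m * N) := hcor'.le
          _ = ε * N ^ m / 4 * (N * y) := by ring
          _ ≤ ε * N ^ m / 4 * (2 * ((2 ^ K : ℕ) : ℝ)) :=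
              mul_le_mul_of_nonneg_left hK2.le (by positivity)
          _ = ε * N ^ m / 2 * ((2 ^ K : ℕ) : ℝ) := by ring
      exact le_of_mul_le_mul_right h6 hKpos
    have hSum : ∑ l ∈ range K, P * N ^ m * (4 * p * (2 ^ l : ℕ) / N) ^ e ≤ ε * N ^ m / 2 := by
      have hp : ∀ l : ℕ, ((2 : ℝ) ^ l) ^ e = x ^ l := by
        intro l
        rw [hx, ← Real.rpow_natCast, ← Real.rpow_natCast, ← Real.rpow_mul (by norm_num),
          ← Real.rpow_mul (by norm_num), mul_comm]
      have e1 : ∀ l ∈ range K, P * N ^ m * (4 * p * (2 ^ l : ℕ) / N) ^ e =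
          P * N ^ m * (4 * p / N) ^ e * x ^ l := by
        intro l _
        have : (4 * (p : ℝ) * ((2 ^ l : ℕ) : ℝ) / N) = (4 * p / N) * (2 : ℝ) ^ l := by
          push_cast; ring
        rw [this, Real.mul_rpow (by positivity) (by positivity), hp l]
        ring
      rw [sum_congr rfl e1, ← mul_sum, geom_sum_eq hx1.ne']
      have hxK : x ^ K = ((2 ^ K : ℕ) : ℝ) ^ e := by
        rw [← hp K]
        push_cast
        rfl
      have h7 : x ^ K ≤ (N * y) ^ e := by
        rw [hxK]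
        exact Real.rpow_le_rpow hKpos.le hK1 he.le
      have h8 : (N * y) ^ e = N ^ e * (ε / (2 * E)) := by
        rw [Real.mul_rpow hN0.le hy0.le, hy, ← Real.rpow_mul (by positivity),
          one_div_mul_cancel he.ne', Real.rpow_one]
      calc P * N ^ m * (4 * p / N) ^ e * ((x ^ K - 1) / (x - 1))
          ≤ P * N ^ m * (4 * p / N) ^ e * ((N * y) ^ e / (x - 1)) := by
            refine mul_le_mul_of_nonneg_left ?_ (by positivity)
            refine div_le_div_of_nonneg_right ?_ (by linarith)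
            linarith
        _ = E * (ε / (2 * E)) * N ^ m := by
            rw [h8, Real.div_rpow (by positivity) hN0.le, hE]
            have : N ^ e ≠ 0 := (Real.rpow_pos_of_pos hN0 _).ne'
            have hx0 : x - 1 ≠ 0 := by linarith
            field_simp
        _ = ε * N ^ m / 2 := by field_simp
    have hc2 := sdiff_card A A1 A'
    linarith

/-- supersaturation implies power saving -/
theorem PS_of_SS {S : Finset (Fin m → ZMod p)} {e κ : ℝ} (he : 0 < e) (hκ : 0 < κ)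
    (h : SS S (1 + 1 / e) κ) : ∃ C : ℝ, 0 < C ∧ PS S e C := by
  have hp0 : (0 : ℝ) < p := by exact_mod_cast hpf.out.pos
  refine ⟨(1 / κ) ^ e, by positivity, ?_⟩
  intro n A hA
  set N : ℝ := (p : ℝ) ^ n with hN
  have hN0 : 0 < N := by positivity
  rcases A.eq_empty_or_nonempty with rfl | hne
  · simp only [card_empty, Nat.cast_zero]; positivity
  have hApos : (0 : ℝ) < A.card := by exact_mod_cast card_pos.2 hne
  have h1 := h n A
  rw [(free_iff A).1 hA, card_empty, Nat.cast_zero, zero_add] at h1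
  rw [← hN] at h1
  obtain ⟨α, hα0, hAα, hdiv⟩ : ∃ α : ℝ, 0 < α ∧ (A.card : ℝ) = α * N ^ m ∧
      (A.card : ℝ) / N ^ m = α :=
    ⟨(A.card : ℝ) / N ^ m, by positivity, (div_mul_cancel₀ _ (by positivity)).symm, rfl⟩
  rw [hdiv] at h1
  clear hdiv
  rw [hAα, Real.rpow_add hα0, Real.rpow_one] at h1
  have h2 : α ^ (1 / e) ≤ 1 / κ * N⁻¹ := by
    have : κ * (α ^ (1 / e)) * N * (α * N ^ m) ≤ 1 * (α * N ^ m) := by
      calc κ * (α ^ (1 / e)) * N * (α * N ^ m) = κ * (α * α ^ (1 / e)) * (N ^ m * N) := by ring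
        _ ≤ α * N ^ m := h1
        _ = 1 * (α * N ^ m) := by ring
    have h3 := le_of_mul_le_mul_right this (by positivity)
    rw [← div_eq_mul_inv, div_div, le_div_iff₀ (mul_pos hκ hN0)]
    linarith
  have h4 : α ≤ (1 / κ) ^ e * N ^ (-e) := by
    have : α = (α ^ (1 / e)) ^ e := by
      rw [← Real.rpow_mul hα0.le, one_div_mul_cancel he.ne', Real.rpow_one]
    rw [this]
    refine (Real.rpow_le_rpow (by positivity) h2 he.le).trans (le_of_eq ?_)
    rw [Real.mul_rpow (by positivity) (by positivity), Real.inv_rpow hN0.le,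
      ← Real.rpow_neg hN0.le]
  calc (A.card : ℝ) = α * N ^ m := hAα
    _ ≤ (1 / κ) ^ e * N ^ (-e) * N ^ m := mul_le_mul_of_nonneg_right h4 (by positivity)
    _ = (1 / κ) ^ e * (N ^ m * N ^ (-e)) := by ring

/-- power saving implies supersaturation -/
theorem SS_of_PS {S : Finset (Fin m → ZMod p)} (hS : 2 ≤ S.card) {e C : ℝ} (he : 0 < e)
    (hC : 0 < C) (h : PS S e C) : ∃ κ : ℝ, 0 < κ ∧ SS S (1 + 1 / e) κ := by
  have hp0 : (0 : ℝ) < p := by exact_mod_cast hpf.out.pos
  obtain ⟨κ1, hκ1, hRL⟩ := RL_of_PS hS he hC h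
  set D : ℝ := 1 + 1 / e with hD
  have hD0 : 0 < D := by positivity
  refine ⟨min (κ1 * (1 / 2) ^ D) ((2 * C) ^ (-(1 / e))), lt_min (by positivity)
    (by positivity), ?_⟩
  intro n A
  set κ := min (κ1 * (1 / 2) ^ D) ((2 * C) ^ (-(1 / e))) with hκ
  have hκa : κ ≤ κ1 * (1 / 2) ^ D := min_le_left _ _
  have hκb : κ ≤ (2 * C) ^ (-(1 / e)) := min_le_right _ _
  set N : ℝ := (p : ℝ) ^ n with hN
  have hN0 : 0 < N := by positivity
  rcases A.eq_empty_or_nonempty with rfl | hne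
  · simp only [card_empty, Nat.cast_zero, zero_div, add_zero]
    rw [Real.zero_rpow hD0.ne']
    simp
  have hApos : (0 : ℝ) < A.card := by exact_mod_cast card_pos.2 hne
  obtain ⟨α, hα0, hAα, hdiv⟩ : ∃ α : ℝ, 0 < α ∧ (A.card : ℝ) = α * N ^ m ∧
      (A.card : ℝ) / N ^ m = α :=
    ⟨(A.card : ℝ) / N ^ m, by positivity, (div_mul_cancel₀ _ (by positivity)).symm, rfl⟩
  rw [hdiv]
  clear hdiv
  by_cases hcor : ((copies S A).card : ℝ) < κ1 * (α / 2) ^ D * (N ^ m * N)
  · obtain ⟨A', hA', hcf, hcard⟩ := hRL n A (α / 2) (by positivity) hcor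
    have h1 : (A.card : ℝ) ≤ A'.card + (A \ A').card := by
      have : A.card = A'.card + (A \ A').card := by
        rw [card_sdiff_of_subset hA']
        have := card_le_card hA'
        omega
      rw [this]; push_cast; exact le_rfl
    have h2 : (A'.card : ℝ) ≤ C * (N ^ m * N ^ (-e)) := h n A' hcf
    have h3 : α / 2 * N ^ m ≤ C * (N ^ m * N ^ (-e)) := by
      rw [← hN] at hcard
      linarith
    have h4 : α ≤ 2 * C * N ^ (-e) := by
      have h5 : α / 2 * N ^ m ≤ (C * N ^ (-e)) * N ^ m := by linarith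
      have h6 := le_of_mul_le_mul_right h5 (by positivity)
      linarith
    have h7 : α ^ (1 / e) ≤ (2 * C) ^ (1 / e) * N⁻¹ := by
      refine (Real.rpow_le_rpow hα0.le h4 (by positivity)).trans (le_of_eq ?_)
      rw [Real.mul_rpow (by positivity) (by positivity), ← Real.rpow_mul hN0.le]
      congr 1
      have : -e * (1 / e) = -1 := by field_simp
      rw [this, Real.rpow_neg_one]
    have h8 : κ * α ^ D * (N ^ m * N) ≤ A.card := by
      rw [hD, Real.rpow_add hα0, Real.rpow_one, hAα]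
      calc κ * (α * α ^ (1 / e)) * (N ^ m * N)
          ≤ (2 * C) ^ (-(1 / e)) * (α * ((2 * C) ^ (1 / e) * N⁻¹)) * (N ^ m * N) := by
            refine mul_le_mul_of_nonneg_right ?_ (by positivity)
            refine mul_le_mul hκb ?_ (by positivity) (by positivity)
            exact mul_le_mul_of_nonneg_left h7 hα0.le
        _ = ((2 * C) ^ (-(1 / e)) * (2 * C) ^ (1 / e)) * (α * N ^ m) := by
            field_simp
        _ = α * N ^ m := by
            rw [← Real.rpow_add (by positivity)]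
            simp
    have h9 : (0 : ℝ) ≤ (copies S A).card := Nat.cast_nonneg _
    linarith
  · push Not at hcor
    have h1 : κ * α ^ D * (N ^ m * N) ≤ κ1 * (α / 2) ^ D * (N ^ m * N) := by
      refine mul_le_mul_of_nonneg_right ?_ (by positivity)
      calc κ * α ^ D ≤ κ1 * (1 / 2) ^ D * α ^ D := mul_le_mul_of_nonneg_right hκa (by positivity)
        _ = κ1 * (α / 2) ^ D := by
            rw [mul_assoc, ← Real.mul_rpow (by norm_num) hα0.le]
            congr 2
            ring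
    linarith

/-- the removal lemma implies power saving -/
theorem PS_of_RL {S : Finset (Fin m → ZMod p)} (hS : 2 ≤ S.card) {e κ : ℝ} (he : 0 < e)
    (hκ : 0 < κ) (h : RL S (1 + 1 / e) κ) : ∃ C : ℝ, 0 < C ∧ PS S e C := by
  have hp0 : (0 : ℝ) < p := by exact_mod_cast hpf.out.pos
  refine ⟨2 * (p : ℝ) ^ m * (2 * (p : ℝ) ^ (m + 1) / κ) ^ e * (p : ℝ) ^ (-e), by positivity, ?_⟩
  intro n A hA
  classical
  rcases A.eq_empty_or_nonempty with rfl | hne
  · simp only [card_empty, Nat.cast_zero]; positivity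
  have hApos : (0 : ℝ) < A.card := by exact_mod_cast card_pos.2 hne
  obtain ⟨s0, hs0⟩ : S.Nonempty := card_pos.1 (by omega)
  set M : ℝ := (p : ℝ) ^ (n + 1) with hM
  have hM0 : 0 < M := by positivity
  -- the blow-up
  let π : (Fin m → V p (n + 1)) → (Fin m → V p n) := fun q j => Fin.tail (q j)
  let B : Finset (Fin m → V p (n + 1)) := univ.filter fun q => π q ∈ A
  have hπ : ∀ (a : Fin m → ZMod p) (v : Fin m → V p n),
      π (fun j => (Fin.cons (a j) (v j) : V p (n + 1))) = v := by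
    intro a v
    funext j i
    simp [π, Fin.tail]
  have hext : ∀ u v : V p (n + 1), u 0 = v 0 → Fin.tail u = Fin.tail v → u = v := by
    intro u v h0 ht
    rw [← Fin.cons_self_tail u, ← Fin.cons_self_tail v, h0, ht]
  have hBc : B.card ≤ A.card * p ^ m := by
    have : B.card ≤ (A ×ˢ (univ : Finset (Fin m → ZMod p))).card := by
      refine card_le_card_of_injOn (fun q => (π q, fun j => q j 0)) ?_ ?_
      · intro q hq
        exact mem_coe.2 (mem_product.2 ⟨(mem_filter.1 (mem_coe.1 hq)).2, mem_univ _⟩)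
      · intro q _ q' _ hqq
        obtain ⟨h1, h2⟩ := Prod.mk.inj hqq
        funext j
        exact hext _ _ (congrFun h2 j) (congrFun h1 j)
    rw [card_product, card_univ, Fintype.card_fun, ZMod.card, Fintype.card_fin] at this
    exact this
  have hcor : (copies S B).card ≤ B.card * p := by
    have : (copies S B).card ≤ (B ×ˢ (univ : Finset (ZMod p))).card := by
      refine card_le_card_of_injOn (fun t => (t.1 + tz s0 t.2, t.2 0)) ?_ ?_
      · intro t ht
        exact mem_coe.2 (mem_product.2 ⟨(mem_copies.1 (mem_coe.1 ht)).2 s0 hs0, mem_univ _⟩)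
      · intro t ht t' ht' htt
        have key : ∀ t ∈ copies S B, Fin.tail t.2 = (0 : V p n) := by
          intro t ht
          obtain ⟨hz, h1⟩ := mem_copies.1 ht
          by_contra hne'
          obtain ⟨s, hs, hn⟩ := hA (π t.1) (Fin.tail t.2) hne'
          exact hn (mem_filter.1 (h1 s hs)).2
        obtain ⟨h1, h2⟩ := Prod.mk.inj htt
        have h3 : t.2 = t'.2 := hext _ _ h2
          ((key t (mem_coe.1 ht)).trans (key t' (mem_coe.1 ht')).symm)
        rw [h3] at h1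
        exact Prod.ext (add_right_cancel h1) h3
    rw [card_product, card_univ, ZMod.card] at this
    exact this
  have hmiss : ∀ B' ⊆ B, Free S B' → A.card ≤ (B \ B').card := by
    intro B' hB' hcf
    have hex : ∀ a : Fin m → V p n, ∃ q : Fin m → V p (n + 1), a ∈ A →
        q ∈ B \ B' ∧ π q = a := by
      intro a
      by_cases ha : a ∈ A
      · have hz : (Fin.cons 1 0 : V p (n + 1)) ≠ 0 := by
          intro h0
          have := congrFun h0 0
          rw [Fin.cons_zero] at this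
          exact one_ne_zero this
        obtain ⟨s, hs, hn⟩ := hcf (fun j => (Fin.cons 0 (a j) : V p (n + 1))) (Fin.cons 1 0) hz
        have e1 : (fun j => (Fin.cons 0 (a j) : V p (n + 1))) +
            tz s (Fin.cons 1 0 : V p (n + 1)) = fun j => (Fin.cons (s j) (a j) : V p (n + 1)) := by
          funext j i
          refine Fin.cases ?_ (fun l => ?_) i
          · simp [tz]
          · simp [tz]
        rw [e1] at hn
        exact ⟨_, fun _ => ⟨mem_sdiff.2 ⟨mem_filter.2 ⟨mem_univ _, by rw [hπ]; exact ha⟩, hn⟩,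
          hπ s a⟩⟩
      · exact ⟨0, fun h => absurd h ha⟩
    choose f hf using hex
    refine card_le_card_of_injOn f (fun a ha => mem_coe.2 (hf a (mem_coe.1 ha)).1) ?_
    intro a ha a' ha' haa
    rw [← (hf a (mem_coe.1 ha)).2, ← (hf a' (mem_coe.1 ha')).2, haa]
  -- conclusion
  obtain ⟨ε, hε0, hAε⟩ : ∃ ε : ℝ, 0 < ε ∧ (A.card : ℝ) = 2 * M ^ m * ε :=
    ⟨(A.card : ℝ) / (2 * M ^ m), by positivity, (mul_div_cancel₀ _ (by positivity)).symm⟩
  have h1 : κ * ε ^ (1 + 1 / e) * (M ^ m * M) ≤ 2 * (p : ℝ) ^ (m + 1) * (ε * M ^ m) := by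
    by_contra hcon
    push Not at hcon
    have h2 : ((copies S B).card : ℝ) < κ * ε ^ (1 + 1 / e) * (M ^ m * M) := by
      refine lt_of_le_of_lt ?_ hcon
      have : ((copies S B).card : ℝ) ≤ (A.card : ℝ) * (p : ℝ) ^ m * p := by
        exact_mod_cast hcor.trans (Nat.mul_le_mul_right _ hBc)
      rw [hAε] at this
      refine this.trans (le_of_eq ?_)
      rw [pow_succ]; ring
    obtain ⟨B', hB', hcf, hcard⟩ := h (n + 1) B ε hε0 h2
    have h3 : (A.card : ℝ) ≤ ε * M ^ m := le_trans (by exact_mod_cast hmiss B' hB' hcf) hcard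
    rw [hAε] at h3
    have : 0 < ε * M ^ m := by positivity
    linarith
  have h2 : ε ^ (1 / e) ≤ 2 * (p : ℝ) ^ (m + 1) / κ * M⁻¹ := by
    rw [Real.rpow_add hε0, Real.rpow_one] at h1
    have h3 : (κ * ε ^ (1 / e) * M) * (ε * M ^ m) ≤ 2 * (p : ℝ) ^ (m + 1) * (ε * M ^ m) := by
      calc (κ * ε ^ (1 / e) * M) * (ε * M ^ m) = κ * (ε * ε ^ (1 / e)) * (M ^ m * M) := by ring
        _ ≤ 2 * (p : ℝ) ^ (m + 1) * (ε * M ^ m) := h1
    have h4 := le_of_mul_le_mul_right h3 (by positivity)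
    rw [← div_eq_mul_inv, div_div, le_div_iff₀ (by positivity)]
    linarith
  have h4 : ε ≤ (2 * (p : ℝ) ^ (m + 1) / κ) ^ e * M ^ (-e) := by
    have : ε = (ε ^ (1 / e)) ^ e := by
      rw [← Real.rpow_mul hε0.le, one_div_mul_cancel he.ne', Real.rpow_one]
    rw [this]
    refine (Real.rpow_le_rpow (by positivity) h2 he.le).trans (le_of_eq ?_)
    rw [Real.mul_rpow (by positivity) (by positivity), Real.inv_rpow hM0.le,
      ← Real.rpow_neg hM0.le]
  calc (A.card : ℝ) = 2 * M ^ m * ε := hAε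
    _ ≤ 2 * M ^ m * ((2 * (p : ℝ) ^ (m + 1) / κ) ^ e * M ^ (-e)) :=
        mul_le_mul_of_nonneg_left h4 (by positivity)
    _ = 2 * (p : ℝ) ^ m * (2 * (p : ℝ) ^ (m + 1) / κ) ^ e * (p : ℝ) ^ (-e) *
          (((p : ℝ) ^ n) ^ m * ((p : ℝ) ^ n) ^ (-e)) := by
        rw [hM, pow_succ, Real.mul_rpow (by positivity) (by positivity), mul_pow]
        ring

/-- the removal lemma with a larger exponent -/
lemma RL.mono {S : Finset (Fin m → ZMod p)} (hS : S.Nonempty) {D D' κ : ℝ} (hDD : D ≤ D')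
    (hκ : 0 < κ) (h : RL S D κ) : RL S D' κ := by
  intro n A ε hε hcor
  have hp0 : (0 : ℝ) < p := by exact_mod_cast hpf.out.pos
  by_cases h1 : ε ≤ 1
  · refine h n A ε hε (hcor.trans_le ?_)
    refine mul_le_mul_of_nonneg_right (mul_le_mul_of_nonneg_left ?_ hκ.le) (by positivity)
    exact Real.rpow_le_rpow_of_exponent_ge hε h1 hDD
  · push Not at h1
    obtain ⟨s, hs⟩ := hS
    refine ⟨∅, empty_subset _, fun x z _ => ⟨s, hs, notMem_empty _⟩, ?_⟩
    rw [sdiff_empty]
    have h2 : A.card ≤ (p ^ n) ^ m := by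
      refine (card_le_univ A).trans (le_of_eq ?_)
      rw [Fintype.card_fun, Fintype.card_fun, ZMod.card, Fintype.card_fin, Fintype.card_fin]
    calc (A.card : ℝ) ≤ ((p : ℝ) ^ n) ^ m := by exact_mod_cast h2
      _ ≤ ε * ((p : ℝ) ^ n) ^ m := le_mul_of_one_le_left (by positivity) h1.le

end Pool.Agent.Q93.HP
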